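import Pool.Agent.H30.Loc

/-! The locality tensor product of locality vector spaces need not be a locality vector space. -/

namespace Pool.Agent.Results.MP_16c542_al.NotLocality

open TensorProduct Pool.Agent.H30.Loc

/-- The polar set of `S` for the relation `r`. -/
def polarSet {X : Type} (r : X → X → Prop) (S : Set X) : Set X := {x | ∀ y ∈ S, r x y}

/-- A symmetric relation on a vector space all of whose polar sets are linear subspaces. -/
def IsLocalityVS (K : Type) [Field K] {E : Type} [AddCommGroup E] [Module K E]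
    (r : E → E → Prop) : Prop :=
  (∀ x y, r x y → r y x) ∧ ∀ S : Set E, ∃ P : Submodule K E, (P : Set E) = polarSet r S

/-- The locality tensor product, as the span of the local pure tensors in `V ⊗ W`. -/
def locTensor (K : Type) [Field K] {E : Type} [AddCommGroup E] [Module K E]
    (r : E → E → Prop) (V W : Submodule K E) : Submodule K (V ⊗[K] W) :=
  Submodule.span K {z | ∃ (v : V) (w : W), r v w ∧ z = v ⊗ₜ[K] w}

/-- The quotient locality relation on the locality tensor product. -/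
def quotRel (K : Type) [Field K] {E : Type} [AddCommGroup E] [Module K E]
    (r : E → E → Prop) (V W : Submodule K E) (X Y : locTensor K r V W) : Prop :=
  ∃ (m n : ℕ) (v : Fin m → V) (w : Fin m → W) (v' : Fin n → V) (w' : Fin n → W),
    (X : V ⊗[K] W) = ∑ i, v i ⊗ₜ[K] w i ∧ (Y : V ⊗[K] W) = ∑ j, v' j ⊗ₜ[K] w' j ∧
    (∀ i, r (v i) (w i)) ∧ (∀ j, r (v' j) (w' j)) ∧
    ∀ i j, r (v i) (v' j) ∧ r (v i) (w' j) ∧ r (w i) (v' j) ∧ r (w i) (w' j)

/-- Some polar set of `r` is not closed under addition. -/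
def PolarNotAddClosed {X : Type} [Add X] (r : X → X → Prop) : Prop :=
  ∃ (S : Set X) (x y : X), x ∈ polarSet r S ∧ y ∈ polarSet r S ∧ x + y ∉ polarSet r S

/-- a vector of the whole space, as an element of the top subspace -/
def vv {K : Type} [Field K] (a b c d e f g : K) : (⊤ : Submodule K (Fin 7 → K)) :=
  ⟨![a, b, c, d, e, f, g], trivial⟩

lemma square_id {K V : Type} [Field K] [AddCommGroup V] [Module K V] (p b c : V) :
    p ⊗ₜ[K] p = ∑ j : Fin 6, ![-b, -c, p + b, p + c, b + c, -(p + b + c)] j ⊗ₜ[K]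
      ![b, c, p + b, p + c, b + c, p + b + c] j := by
  simp only [Fin.sum_univ_succ, Fin.sum_univ_zero, Matrix.cons_val_zero, Matrix.cons_val_succ,
    add_tmul, tmul_add, neg_tmul]
  abel

theorem result (K : Type) [Field K] :
    ∃ (E : Type) (_ : AddCommGroup E) (_ : Module K E) (r : E → E → Prop) (V W : Submodule K E),
      IsLocalityVS K r ∧ PolarNotAddClosed (quotRel K r V W) := by
  refine ⟨Fin 7 → K, inferInstance, inferInstance, rel, ⊤, ⊤, ⟨fun _ _ => rel_symm, fun S => ⟨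
    { carrier := polarSet rel S
      zero_mem' := fun y _ => rel_zero y
      add_mem' := fun ha hb y hy => rel_add (ha y hy) (hb y hy)
      smul_mem' := fun c _ ha y hy => rel_smul c (ha y hy) }, rfl⟩⟩, ?_⟩
  let p : (⊤ : Submodule K (Fin 7 → K)) := vv 1 0 0 0 0 0 0
  let a₁ : (⊤ : Submodule K (Fin 7 → K)) := vv 0 0 0 0 0 1 0
  let a₂ : (⊤ : Submodule K (Fin 7 → K)) := vv 0 0 0 0 0 0 1
  let b₁ : (⊤ : Submodule K (Fin 7 → K)) := vv 0 1 0 0 0 0 0
  let c₁ : (⊤ : Submodule K (Fin 7 → K)) := vv 0 0 1 0 0 0 0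
  let b₂ : (⊤ : Submodule K (Fin 7 → K)) := vv 0 0 0 1 0 0 0
  let c₂ : (⊤ : Submodule K (Fin 7 → K)) := vv 0 0 0 0 1 0 0
  have l1 : ∀ j : Fin 6,
      rel (![-b₁, -c₁, p + b₁, p + c₁, b₁ + c₁, -(p + b₁ + c₁)] j : (⊤ : Submodule K _)).1
        (![b₁, c₁, p + b₁, p + c₁, b₁ + c₁, p + b₁ + c₁] j : (⊤ : Submodule K _)).1 := by
    intro j
    fin_cases j <;> simp [rel, TL, SL, p, b₁, c₁, vv]
  have l2 : ∀ j : Fin 6,
      rel (![-b₂, -c₂, p + b₂, p + c₂, b₂ + c₂, -(p + b₂ + c₂)] j : (⊤ : Submodule K _)).1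
        (![b₂, c₂, p + b₂, p + c₂, b₂ + c₂, p + b₂ + c₂] j : (⊤ : Submodule K _)).1 := by
    intro j
    fin_cases j <;> simp [rel, TL, SL, p, b₂, c₂, vv]
  have r1 : rel a₁.1 a₁.1 := by simp [rel, TL, a₁, vv]
  have r2 : rel a₂.1 a₂.1 := by simp [rel, TL, a₂, vv]
  have hY : p ⊗ₜ[K] p ∈ locTensor K rel ⊤ ⊤ := by
    rw [square_id p b₁ c₁]
    exact Submodule.sum_mem _ (fun j _ => Submodule.subset_span ⟨_, _, l1 j, rfl⟩)
  refine ⟨{⟨_, hY⟩}, ⟨a₁ ⊗ₜ[K] a₁, Submodule.subset_span ⟨_, _, r1, rfl⟩⟩,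
    ⟨a₂ ⊗ₜ[K] a₂, Submodule.subset_span ⟨_, _, r2, rfl⟩⟩, ?_, ?_, ?_⟩
  · rintro _ rfl
    refine ⟨1, 6, fun _ => a₁, fun _ => a₁, _, _, by simp, square_id p b₁ c₁, fun _ => r1, l1,
      fun _ j => ?_⟩
    fin_cases j <;> simp [rel, TL, p, a₁, b₁, c₁, vv]
  · rintro _ rfl
    refine ⟨1, 6, fun _ => a₂, fun _ => a₂, _, _, by simp, square_id p b₂ c₂, fun _ => r2, l2,
      fun _ j => ?_⟩
    fin_cases j <;> simp [rel, TL, p, a₂, b₂, c₂, vv]
  · intro h
    obtain ⟨m, n, v, w, v', w', hX, hY', -, hl, hc⟩ := h _ rfl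
    let co : Fin 7 → ((⊤ : Submodule K (Fin 7 → K)) →ₗ[K] K) := fun k =>
      LinearMap.proj k ∘ₗ (⊤ : Submodule K (Fin 7 → K)).subtype
    have hco : ∀ k (x : (⊤ : Submodule K (Fin 7 → K))), co k x = x.1 k := fun _ _ => rfl
    have ctr : ∀ k, (a₁.1 k • a₁.1 + a₂.1 k • a₂.1 : Fin 7 → K) = ∑ i, (w i).1 k • (v i).1 := by
      intro k
      have := congrArg (fun z => ((TensorProduct.rid K _ (LinearMap.lTensor _ (co k) z)) :
        (⊤ : Submodule K (Fin 7 → K))).1) hX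
      simpa [hco] using this
    have e1 : (![0, 0, 0, 0, 0, 1, 0] : Fin 7 → K) = ∑ i, (w i).1 5 • (v i).1 := by
      rw [← ctr]; simp [a₁, a₂, vv]
    have e2 : (![0, 0, 0, 0, 0, 0, 1] : Fin 7 → K) = ∑ i, (w i).1 6 • (v i).1 := by
      rw [← ctr]; simp [a₁, a₂, vv]
    have hz : ∀ j, (v' j).1 0 * (w' j).1 0 = 0 := by
      intro j
      have v1 := rel_a1 (e1 ▸ rel_sum _ _ _ (fun i => (hc i j).1))
      have v2 := rel_a2 (e2 ▸ rel_sum _ _ _ (fun i => (hc i j).1))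
      have w1 := rel_a1 (e1 ▸ rel_sum _ _ _ (fun i => (hc i j).2.1))
      have w2 := rel_a2 (e2 ▸ rel_sum _ _ _ (fun i => (hc i j).2.1))
      exact rel_pp (hl j) v2.1 v2.2.1 v1.1 v1.2.1 w2.1 w2.2.1 w1.1 w1.2.1
    have := congrArg (fun z => co 0 (TensorProduct.rid K _ (LinearMap.lTensor _ (co 0) z))) hY'
    simp only [map_sum, LinearMap.lTensor_tmul, TensorProduct.rid_tmul, map_smul,
      smul_eq_mul] at this
    simp only [hco] at this
    rw [Finset.sum_eq_zero (fun j _ => (mul_comm _ _).trans (hz j))] at this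
    simp [p, vv] at this

end Pool.Agent.Results.MP_16c542_al.NotLocality
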